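import Pool.Agent.Helper67.NM.Iface

/-!
The quantitative Weyl criterion in two variables.
-/

set_option autoImplicit false

open Finset Filter Real

namespace Pool.Agent.Helper48.NM

open Pool.Agent.Helper73.RG Pool.Agent.Helper73.MD Pool.Agent.Helper67.NM

theorem hasSum_trunc (f : ℕ → ℝ) (H : ℕ) :
    HasSum (fun h : ℕ => if h ∈ range H then f h else 0) (∑ h ∈ range H, f h) := by
  have h6 : HasSum (fun h : ℕ => if h ∈ range H then f h else 0)
      (∑ h ∈ range H, (if h ∈ range H then f h else 0)) :=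
    hasSum_sum_of_ne_finset_zero (fun h hh => if_neg hh)
  have h5 : ∑ h ∈ range H, (if h ∈ range H then f h else 0) = ∑ h ∈ range H, f h :=
    Finset.sum_congr rfl fun h hh => if_pos hh
  rwa [h5] at h6

/-- truncation of the cosine series of the tent -/
theorem tent_trunc {b : ℝ} (hb0 : 0 < b) (hb : b ≤ 1 / 2) {η : ℝ} (hη : 0 < η) :
    ∃ H₀ : ℕ, ∀ H, H₀ ≤ H → ∀ v : ℝ,
      |tent b v - ∑ h ∈ range H, wt b h * cos (2 * π * h * v)| ≤ η := by
  have hw := hasSum_wt hb0 hb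
  have ht : ∀ᶠ n in atTop, 1 / b - η < ∑ h ∈ range n, wt b h :=
    hw.tendsto_sum_nat.eventually_const_lt (by linarith)
  obtain ⟨H₀, hH₀⟩ := eventually_atTop.1 ht
  refine ⟨H₀, fun H hH v => ?_⟩
  have h3 := (hasSum_tent hb0 hb v).sub (hasSum_trunc (fun h => wt b h * cos (2 * π * h * v)) H)
  have h5 := hw.sub (hasSum_trunc (fun h => wt b h) H)
  have h6 : ∀ h : ℕ, |wt b h * cos (2 * π * h * v) -
      (if h ∈ range H then wt b h * cos (2 * π * h * v) else 0)| ≤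
      wt b h - (if h ∈ range H then wt b h else 0) := by
    intro h
    split_ifs with h0
    · simp
    · rw [sub_zero, sub_zero, abs_mul, abs_of_nonneg (wt_nonneg b h)]
      exact mul_le_of_le_one_right (wt_nonneg b h) (abs_cos_le_one _)
  have h7 : |tent b v - ∑ h ∈ range H, wt b h * cos (2 * π * h * v)| ≤
      1 / b - ∑ h ∈ range H, wt b h := by
    rw [abs_le]
    exact ⟨hasSum_le (fun h => (abs_le.1 (h6 h)).1) h5.neg h3,
      hasSum_le (fun h => (abs_le.1 (h6 h)).2) h3 h5⟩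
  have := hH₀ H hH
  linarith

/-- the trapezoid -/
noncomputable def trap (R s v : ℝ) : ℝ :=
  R ^ 2 * tent R v - ((1 - s) * R) ^ 2 * tent ((1 - s) * R) v

/-- its cosine coefficients -/
noncomputable def coef (R s : ℝ) (h : ℕ) : ℝ :=
  R ^ 2 * wt R h - ((1 - s) * R) ^ 2 * wt ((1 - s) * R) h

/-- the truncated cosine series of the trapezoid -/
noncomputable def pol (R s : ℝ) (H : ℕ) (v : ℝ) : ℝ :=
  ∑ h ∈ range H, coef R s h * cos (2 * π * h * v)

theorem coef_zero (R s : ℝ) : coef R s 0 = R ^ 2 * (s * (2 - s)) := by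
  unfold coef
  rw [wt_zero, wt_zero]
  ring

theorem trap_trunc {R s : ℝ} (hR0 : 0 < R) (hR : R ≤ 1 / 2) (hs0 : 0 < s) (hs1 : s < 1) {η : ℝ}
    (hη : 0 < η) : ∃ H : ℕ, 1 ≤ H ∧ ∀ v : ℝ, |trap R s v - pol R s H v| ≤ η := by
  have hR2 : 0 < (1 - s) * R := mul_pos (by linarith) hR0
  have hR2h : (1 - s) * R ≤ 1 / 2 := by nlinarith
  obtain ⟨H₁, h₁⟩ := tent_trunc hR0 hR hη
  obtain ⟨H₂, h₂⟩ := tent_trunc hR2 hR2h hη
  refine ⟨max 1 (max H₁ H₂), le_max_left _ _, fun v => ?_⟩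
  set H := max 1 (max H₁ H₂) with hH
  have g₁ := h₁ H ((le_max_left _ _).trans (le_max_right _ _)) v
  have g₂ := h₂ H ((le_max_right _ _).trans (le_max_right _ _)) v
  have h3 : trap R s v - pol R s H v =
      R ^ 2 * (tent R v - ∑ h ∈ range H, wt R h * cos (2 * π * h * v)) -
      ((1 - s) * R) ^ 2 * (tent ((1 - s) * R) v -
        ∑ h ∈ range H, wt ((1 - s) * R) h * cos (2 * π * h * v)) := by
    have h4 : pol R s H v = R ^ 2 * ∑ h ∈ range H, wt R h * cos (2 * π * h * v) -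
        ((1 - s) * R) ^ 2 * ∑ h ∈ range H, wt ((1 - s) * R) h * cos (2 * π * h * v) := by
      unfold pol coef
      rw [mul_sum, mul_sum, ← Finset.sum_sub_distrib]
      exact Finset.sum_congr rfl fun h _ => by ring
    rw [h4]
    unfold trap
    ring
  rw [h3]
  refine (abs_sub _ _).trans ?_
  rw [abs_mul, abs_mul, abs_of_nonneg (pow_two_nonneg R), abs_of_nonneg (pow_two_nonneg ((1 - s) * R))]
  have h5 : R ^ 2 ≤ 1 / 2 := by nlinarith
  have h6 : ((1 - s) * R) ^ 2 ≤ 1 / 2 := by nlinarith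
  have h7 := mul_le_mul h5 g₁ (abs_nonneg _) (by norm_num)
  have h8 := mul_le_mul h6 g₂ (abs_nonneg _) (by norm_num)
  linarith

/-- the exponential sum in two variables -/
noncomputable def es2 (I : Finset ℕ) (y z : ℕ → ℝ) (h h' : ℤ) : ℂ :=
  ∑ i ∈ I, ee (h * y i + h' * z i)

theorem cos_cos_sum (I : Finset ℕ) (y z : ℕ → ℝ) (h h' : ℕ) (u u' : ℝ) :
    |∑ i ∈ I, cos (2 * π * h * (y i - u)) * cos (2 * π * h' * (z i - u'))| ≤
      (‖es2 I y z h h'‖ + ‖es2 I y z h (-h')‖) / 2 := by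
  have h1 : ∑ i ∈ I, cos (2 * π * h * (y i - u)) * cos (2 * π * h' * (z i - u')) =
      ((ee (-(h * u + h' * u')) * es2 I y z h h').re +
        (ee (-(h * u - h' * u')) * es2 I y z h (-h')).re) / 2 := by
    unfold es2
    rw [mul_sum, mul_sum, Complex.re_sum, Complex.re_sum, ← Finset.sum_add_distrib, sum_div]
    refine Finset.sum_congr rfl fun i _ => ?_
    rw [← ee_add, ← ee_add]
    unfold ee
    rw [Complex.exp_ofReal_mul_I_re, Complex.exp_ofReal_mul_I_re]
    have e1 : 2 * π * (-(h * u + h' * u') + (((h : ℕ) : ℤ) * y i + ((h' : ℕ) : ℤ) * z i)) =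
        2 * π * h * (y i - u) + 2 * π * h' * (z i - u') := by
      push_cast
      ring
    have e2 : 2 * π * (-(h * u - h' * u') + (((h : ℕ) : ℤ) * y i + ((-(h' : ℤ) : ℤ) : ℝ) * z i)) =
        2 * π * h * (y i - u) - 2 * π * h' * (z i - u') := by
      push_cast
      ring
    rw [e1, e2, Real.cos_add, Real.cos_sub]
    ring
  rw [h1, abs_div, abs_of_pos (show (0 : ℝ) < 2 by norm_num)]
  refine div_le_div_of_nonneg_right ?_ (by norm_num)
  refine (abs_add_le _ _).trans (add_le_add ?_ ?_)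
  · refine (Complex.abs_re_le_norm _).trans ?_
    rw [norm_mul, norm_ee, one_mul]
  · refine (Complex.abs_re_le_norm _).trans ?_
    rw [norm_mul, norm_ee, one_mul]

theorem pol_pol_sum (R s : ℝ) (H : ℕ) (hH : 1 ≤ H) (I : Finset ℕ) (y z : ℕ → ℝ) (u u' : ℝ) {E : ℝ}
    (hE : 0 ≤ E)
    (hes : ∀ h h' : ℤ, (h, h') ≠ 0 → |h| ≤ H → |h'| ≤ H → ‖es2 I y z h h'‖ ≤ E) :
    |(∑ i ∈ I, pol R s H (y i - u) * pol R s H (z i - u')) - (coef R s 0) ^ 2 * I.card| ≤
      (∑ h ∈ range H, |coef R s h|) ^ 2 * E := by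
  have h1 : ∑ i ∈ I, pol R s H (y i - u) * pol R s H (z i - u') =
      ∑ p ∈ range H ×ˢ range H, coef R s p.1 * coef R s p.2 *
        ∑ i ∈ I, cos (2 * π * p.1 * (y i - u)) * cos (2 * π * p.2 * (z i - u')) := by
    have h2 : ∀ i ∈ I, pol R s H (y i - u) * pol R s H (z i - u') =
        ∑ p ∈ range H ×ˢ range H, coef R s p.1 * coef R s p.2 *
          (cos (2 * π * p.1 * (y i - u)) * cos (2 * π * p.2 * (z i - u'))) := by
      intro i _
      unfold pol
      rw [Finset.sum_mul_sum, Finset.sum_product]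
      exact Finset.sum_congr rfl fun p _ => Finset.sum_congr rfl fun p' _ => by ring
    rw [Finset.sum_congr rfl h2, Finset.sum_comm]
    exact Finset.sum_congr rfl fun p _ => by rw [mul_sum]
  have h0 : ((0, 0) : ℕ × ℕ) ∈ range H ×ˢ range H := by simp; omega
  rw [h1, ← Finset.add_sum_erase _ _ h0]
  have h2 : coef R s ((0, 0) : ℕ × ℕ).1 * coef R s ((0, 0) : ℕ × ℕ).2 *
      ∑ i ∈ I, cos (2 * π * (((0, 0) : ℕ × ℕ).1 : ℕ) * (y i - u)) *
        cos (2 * π * (((0, 0) : ℕ × ℕ).2 : ℕ) * (z i - u')) = (coef R s 0) ^ 2 * I.card := by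
    have h3 : ∑ i ∈ I, cos (2 * π * (((0, 0) : ℕ × ℕ).1 : ℕ) * (y i - u)) *
        cos (2 * π * (((0, 0) : ℕ × ℕ).2 : ℕ) * (z i - u')) = I.card := by simp
    rw [h3]
    ring
  rw [h2, add_sub_cancel_left]
  refine (Finset.abs_sum_le_sum_abs _ _).trans ?_
  have h3 : (∑ h ∈ range H, |coef R s h|) ^ 2 * E =
      ∑ p ∈ range H ×ˢ range H, |coef R s p.1| * |coef R s p.2| * E := by
    rw [pow_two, Finset.sum_mul_sum, ← Finset.sum_product', Finset.sum_mul]
  rw [h3]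
  refine (Finset.sum_le_sum fun p hp => ?_).trans
    (Finset.sum_le_sum_of_subset_of_nonneg (Finset.erase_subset _ _) fun p _ _ => by positivity)
  rw [abs_mul, abs_mul]
  refine mul_le_mul_of_nonneg_left ?_ (by positivity)
  refine (cos_cos_sum I y z p.1 p.2 u u').trans ?_
  rw [mem_erase, mem_product, mem_range, mem_range] at hp
  obtain ⟨hp0, hp1, hp2⟩ := hp
  have hne : ¬ (p.1 = 0 ∧ p.2 = 0) := fun h => hp0 (Prod.ext h.1 h.2)
  have g1 := hes p.1 p.2 (by rw [Ne, Prod.mk_eq_zero]; omega)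
    (by rw [Nat.abs_cast]; omega) (by rw [Nat.abs_cast]; omega)
  have g2 := hes p.1 (-p.2) (by rw [Ne, Prod.mk_eq_zero]; omega)
    (by rw [Nat.abs_cast]; omega) (by rw [abs_neg, Nat.abs_cast]; omega)
  linarith

theorem trap_nonneg {R s : ℝ} (hR0 : 0 < R) (hs0 : 0 < s) (hs1 : s < 1) (v : ℝ) :
    0 ≤ trap R s v := by
  have hR2 : 0 < (1 - s) * R := mul_pos (by linarith) hR0
  unfold trap
  rw [sq_tent hR0, sq_tent hR2, sub_nonneg]
  refine max_le_max le_rfl ?_
  nlinarith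

theorem trap_le' {R s : ℝ} (hR0 : 0 < R) (hs0 : 0 < s) (hs1 : s < 1) (v : ℝ) :
    trap R s v ≤ s * R := by
  have hR2 : 0 < (1 - s) * R := mul_pos (by linarith) hR0
  unfold trap
  rw [sq_tent hR0, sq_tent hR2]
  rcases le_total 0 (R - |v - round v|) with h | h
  · rw [max_eq_right h]
    have := le_max_right 0 ((1 - s) * R - |v - round v|)
    nlinarith
  · rw [max_eq_left h]
    have := le_max_left 0 ((1 - s) * R - |v - round v|)
    nlinarith [mul_pos hs0 hR0]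

/-- averages of a product of trapezoids -/
theorem trap_avg {R s : ℝ} (hR0 : 0 < R) (hR : R ≤ 1 / 2) (hs0 : 0 < s) (hs1 : s < 1) {η : ℝ}
    (hη : 0 < η) :
    ∃ (H : ℕ) (e : ℝ), 1 ≤ H ∧ 0 < e ∧ ∀ (k : ℕ) (I : Finset ℕ) (y z : ℕ → ℝ) (u u' : ℝ),
      I.card ≤ k →
      (∀ h h' : ℤ, (h, h') ≠ 0 → |h| ≤ H → |h'| ≤ H → ‖es2 I y z h h'‖ ≤ e * k) →
      (coef R s 0) ^ 2 * I.card - η * k ≤
        ∑ i ∈ I, trap R s (y i - u) * trap R s (z i - u') := by
  set η' : ℝ := min (η / 6) 1 with hη'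
  have hη'0 : 0 < η' := lt_min (by positivity) one_pos
  have hη'1 : η' ≤ 1 := min_le_right _ _
  have hη'2 : η' ≤ η / 6 := min_le_left _ _
  obtain ⟨H, hH, hT⟩ := trap_trunc hR0 hR hs0 hs1 hη'0
  set A : ℝ := (∑ h ∈ range H, |coef R s h|) ^ 2 + 1 with hA
  have hA0 : 0 < A := by positivity
  refine ⟨H, η / (2 * A), hH, by positivity, fun k I y z u u' hI hes => ?_⟩
  have hk : (0 : ℝ) ≤ k := by positivity
  have hIk : (I.card : ℝ) ≤ k := by exact_mod_cast hI
  have h1 := pol_pol_sum R s H hH I y z u u' (by positivity) hes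
  have h2 : (∑ h ∈ range H, |coef R s h|) ^ 2 * (η / (2 * A) * k) ≤ η / 2 * k := by
    have h3 : (∑ h ∈ range H, |coef R s h|) ^ 2 * (η / (2 * A) * k) ≤ A * (η / (2 * A) * k) := by
      refine mul_le_mul_of_nonneg_right (by rw [hA]; linarith) (by positivity)
    refine h3.trans (le_of_eq ?_)
    field_simp
  have h3 : ∀ i ∈ I, pol R s H (y i - u) * pol R s H (z i - u') - 3 * η' ≤
      trap R s (y i - u) * trap R s (z i - u') := by
    intro i _
    have a1 := abs_le.1 (hT (y i - u))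
    have a2 := abs_le.1 (hT (z i - u'))
    have b1 := trap_nonneg hR0 hs0 hs1 (y i - u)
    have b2 := trap_nonneg hR0 hs0 hs1 (z i - u')
    have c1 := trap_le' hR0 hs0 hs1 (y i - u)
    have c2 := trap_le' hR0 hs0 hs1 (z i - u')
    have d1 : s * R ≤ 1 := by nlinarith
    have h4 : |trap R s (y i - u) * trap R s (z i - u') -
        pol R s H (y i - u) * pol R s H (z i - u')| ≤ 3 * η' := by
      have h5 : trap R s (y i - u) * trap R s (z i - u') -
          pol R s H (y i - u) * pol R s H (z i - u') =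
          trap R s (y i - u) * (trap R s (z i - u') - pol R s H (z i - u')) +
          (trap R s (y i - u) - pol R s H (y i - u)) * pol R s H (z i - u') := by ring
      rw [h5]
      refine (abs_add_le _ _).trans ?_
      rw [abs_mul, abs_mul]
      have e1 : |trap R s (y i - u)| ≤ 1 := by rw [abs_le]; constructor <;> linarith
      have e2 : |pol R s H (z i - u')| ≤ 2 := by rw [abs_le]; constructor <;> linarith
      have e3 := mul_le_mul e1 (hT (z i - u')) (abs_nonneg _) (by norm_num)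
      have e4 := mul_le_mul (hT (y i - u)) e2 (abs_nonneg _) hη'0.le
      linarith
    linarith [(abs_le.1 h4).1]
  have h4 := Finset.sum_le_sum h3
  rw [Finset.sum_sub_distrib, Finset.sum_const, nsmul_eq_mul] at h4
  have h5 := (abs_le.1 h1).1
  have h6 : (I.card : ℝ) * (3 * η') ≤ η / 2 * k := by
    calc (I.card : ℝ) * (3 * η') ≤ k * (3 * η') := mul_le_mul_of_nonneg_right hIk (by positivity)
      _ ≤ k * (η / 2) := mul_le_mul_of_nonneg_left (by linarith) hk
      _ = _ := by ring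
  linarith

/-- the number of `i` in `I` such that `(y i, z i)` modulo one is in the box `w` -/
noncomputable def cnt2 (I : Finset ℕ) (y z : ℕ → ℝ) (q : ℕ) (w : ℕ × ℕ) : ℕ :=
  #{i ∈ I | (⌊(q : ℝ) * Int.fract (y i)⌋₊, ⌊(q : ℝ) * Int.fract (z i)⌋₊) = w}

theorem sum_cnt2 (I : Finset ℕ) (y z : ℕ → ℝ) {q : ℕ} (hq : 1 ≤ q) :
    ∑ w ∈ range q ×ˢ range q, cnt2 I y z q w = I.card := by
  have hq0 : (0 : ℝ) < q := by exact_mod_cast hq
  have h1 := Finset.card_eq_sum_card_fiberwise (s := I) (t := range q ×ˢ range q)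
    (f := fun i => (⌊(q : ℝ) * Int.fract (y i)⌋₊, ⌊(q : ℝ) * Int.fract (z i)⌋₊)) (fun i _ => by
      rw [mem_coe, mem_product, mem_range, mem_range]
      constructor
      · show ⌊(q : ℝ) * Int.fract (y i)⌋₊ < q
        rw [Nat.floor_lt (by positivity)]
        have := Int.fract_lt_one (y i)
        nlinarith
      · show ⌊(q : ℝ) * Int.fract (z i)⌋₊ < q
        rw [Nat.floor_lt (by positivity)]
        have := Int.fract_lt_one (z i)
        nlinarith)
  exact h1.symm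

theorem cnt2_ge {q : ℕ} (hq : 1 ≤ q) {s : ℝ} (hs0 : 0 < s) (hs1 : s < 1) {δ : ℝ} (hδ : 0 < δ) :
    ∃ (H : ℕ) (e : ℝ), 1 ≤ H ∧ 0 < e ∧ ∀ (k : ℕ) (I : Finset ℕ) (y z : ℕ → ℝ), I.card ≤ k →
      (∀ h h' : ℤ, (h, h') ≠ 0 → |h| ≤ H → |h'| ≤ H → ‖es2 I y z h h'‖ ≤ e * k) →
      ∀ w ∈ range q ×ˢ range q,
        (I.card : ℝ) / q ^ 2 * (1 - s) - δ * k ≤ cnt2 I y z q w := by
  have hq0 : (0 : ℝ) < q := by exact_mod_cast hq
  have hq1 : (1 : ℝ) ≤ q := by exact_mod_cast hq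
  set R : ℝ := 1 / (2 * (q : ℝ)) with hR
  have hR0 : 0 < R := by positivity
  have hRh : R ≤ 1 / 2 := by
    rw [hR, div_le_div_iff₀ (by positivity) (by norm_num)]
    linarith
  obtain ⟨H, e, hH, he, h⟩ := trap_avg hR0 hRh hs0 hs1 (η := δ * (s * R) ^ 2) (by positivity)
  refine ⟨H, e, hH, he, fun k I y z hI hes w hw => ?_⟩
  have g := h k I y z ((w.1 + 1 / 2) / q) ((w.2 + 1 / 2) / q) hI hes
  rw [mem_product, mem_range, mem_range] at hw
  have h3 : ∑ i ∈ I, trap R s (y i - (w.1 + 1 / 2) / q) * trap R s (z i - (w.2 + 1 / 2) / q) ≤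
      cnt2 I y z q w * (s * R) ^ 2 := by
    have h5 : (cnt2 I y z q w : ℝ) * (s * R) ^ 2 =
        ∑ i ∈ I, if (⌊(q : ℝ) * Int.fract (y i)⌋₊, ⌊(q : ℝ) * Int.fract (z i)⌋₊) = w then
          (s * R) ^ 2 else 0 := by
      rw [← Finset.sum_filter, Finset.sum_const, nsmul_eq_mul]
      rfl
    rw [h5]
    refine Finset.sum_le_sum fun i _ => ?_
    have t1 := trap_le hw.1 hs0 hs1 (y i)
    have t2 := trap_le hw.2 hs0 hs1 (z i)
    rw [← hR] at t1 t2
    change trap R s (y i - (w.1 + 1 / 2) / q) ≤ _ at t1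
    change trap R s (z i - (w.2 + 1 / 2) / q) ≤ _ at t2
    have n1 := trap_nonneg hR0 hs0 hs1 (y i - (w.1 + 1 / 2) / q)
    have n2 := trap_nonneg hR0 hs0 hs1 (z i - (w.2 + 1 / 2) / q)
    have f1 : ∀ (t : ℝ) (m : ℕ), ((m : ℝ) ≤ q * Int.fract t ∧ q * Int.fract t < m + 1) ↔
        ⌊(q : ℝ) * Int.fract t⌋₊ = m := fun t m => (Nat.floor_eq_iff (by positivity)).symm
    rw [if_congr (f1 (y i) w.1) rfl rfl] at t1
    rw [if_congr (f1 (z i) w.2) rfl rfl] at t2
    by_cases c1 : ⌊(q : ℝ) * Int.fract (y i)⌋₊ = w.1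
    · by_cases c2 : ⌊(q : ℝ) * Int.fract (z i)⌋₊ = w.2
      · rw [if_pos c1] at t1
        rw [if_pos c2] at t2
        rw [if_pos (Prod.ext c1 c2), pow_two]
        exact mul_le_mul t1 t2 n2 (n1.trans t1)
      · rw [if_neg c2] at t2
        rw [le_antisymm t2 n2, mul_zero]
        split_ifs <;> positivity
    · rw [if_neg c1] at t1
      rw [le_antisymm t1 n1, zero_mul]
      split_ifs <;> positivity
  have h4 := g.trans h3
  rw [coef_zero] at h4
  have hc : (0 : ℝ) ≤ I.card := by positivity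
  have h8 : ((I.card : ℝ) / q ^ 2 * (1 - s) - δ * k) * (s * R) ^ 2 ≤
      (R ^ 2 * (s * (2 - s))) ^ 2 * I.card - δ * (s * R) ^ 2 * k := by
    have h9 : (I.card : ℝ) / q ^ 2 = 4 * R ^ 2 * I.card := by rw [hR]; field_simp; norm_num
    rw [h9]
    have h10 : (R ^ 2 * (s * (2 - s))) ^ 2 * I.card - δ * (s * R) ^ 2 * k -
        (4 * R ^ 2 * I.card * (1 - s) - δ * k) * (s * R) ^ 2 = R ^ 4 * s ^ 4 * I.card := by ring
    have h11 : 0 ≤ R ^ 4 * s ^ 4 * I.card := by positivity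
    linarith
  exact le_of_mul_le_mul_right (h8.trans h4) (by positivity)

/-- **The quantitative Weyl criterion in two variables.** -/
theorem weyl2 (q : ℕ) (hq : 1 ≤ q) {ε : ℝ} (hε : 0 < ε) :
    ∃ (H : ℕ) (e : ℝ), 0 < e ∧ ∀ (k : ℕ) (I : Finset ℕ) (y z : ℕ → ℝ), I.card ≤ k →
      ε * k ≤ |((#{i ∈ I | (q : ℝ) * Int.fract (y i) < 1 ∧ (q : ℝ) * Int.fract (z i) < 1} : ℕ) : ℝ) -
        I.card / q ^ 2| →
      ∃ h h' : ℤ, (h, h') ≠ 0 ∧ |h| ≤ H ∧ |h'| ≤ H ∧ ∃ d : ℕ, d < 8 ∧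
        e * k ≤ (∑ i ∈ I, Complex.exp (2 * π * Complex.I * (h * y i + h' * z i)) *
          Complex.exp (-(2 * π * Complex.I * ((d : ℂ) / 8)))).re := by
  have hq0 : (0 : ℝ) < q := by exact_mod_cast hq
  have hq1 : (1 : ℝ) ≤ q := by exact_mod_cast hq
  have hm : 0 < min ε 1 := lt_min hε one_pos
  set s : ℝ := min ε 1 / 4 with hs
  have hs0 : 0 < s := by positivity
  have hs1 : s < 1 := by
    have := min_le_right ε 1
    rw [hs]; linarith
  have hsε : s ≤ ε / 4 := by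
    have := min_le_left ε 1
    rw [hs]; linarith
  set δ : ℝ := ε / (4 * (q : ℝ) ^ 2) with hδ
  have hδ0 : 0 < δ := by positivity
  obtain ⟨H, e, hH1, he, hH⟩ := cnt2_ge hq hs0 hs1 hδ0
  refine ⟨H, e / 2, by positivity, fun k I y z hI hdev => ?_⟩
  have h0 : (#{i ∈ I | (q : ℝ) * Int.fract (y i) < 1 ∧ (q : ℝ) * Int.fract (z i) < 1} : ℕ) =
      cnt2 I y z q (0, 0) := by
    unfold cnt2
    congr 1
    ext i
    rw [mem_filter, mem_filter, Prod.mk.injEq, Nat.floor_eq_zero, Nat.floor_eq_zero]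
  rw [h0] at hdev
  rcases Nat.eq_zero_or_pos k with hk0 | hk0
  · subst hk0
    have hI0 : I = ∅ := Finset.card_eq_zero.1 (by omega)
    subst hI0
    refine ⟨1, 0, by simp, ?_, by simp, 0, by norm_num, by simp⟩
    rw [abs_one]
    exact_mod_cast hH1
  have hk : (0 : ℝ) < k := by exact_mod_cast hk0
  have hIk : (I.card : ℝ) ≤ k := by exact_mod_cast hI
  have hI0 : (0 : ℝ) ≤ I.card := by positivity
  have hex : ∃ h h' : ℤ, (h, h') ≠ 0 ∧ |h| ≤ H ∧ |h'| ≤ H ∧ e * k < ‖es2 I y z h h'‖ := by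
    by_contra hcon
    push Not at hcon
    have h1 := hH k I y z hI hcon
    have hw : ((0, 0) : ℕ × ℕ) ∈ range q ×ˢ range q := by simp; omega
    have h2 := h1 _ hw
    have hδk : δ * k ≤ ε / 4 * k := by
      apply mul_le_mul_of_nonneg_right _ hk.le
      rw [hδ, div_le_div_iff₀ (by positivity) (by norm_num)]
      have : (1 : ℝ) ≤ (q : ℝ) ^ 2 := one_le_pow₀ hq1
      nlinarith
    have hdiv : (I.card : ℝ) / q ^ 2 ≤ I.card := div_le_self hI0 (one_le_pow₀ hq1)
    have hdiv0 : (0 : ℝ) ≤ (I.card : ℝ) / q ^ 2 := by positivity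
    have hsI : s * I.card ≤ ε / 4 * k := mul_le_mul hsε hIk hI0 (by positivity)
    have h3 : (cnt2 I y z q (0, 0) : ℝ) ≤ I.card / q ^ 2 + ε / 2 * k := by
      have h4 : ∑ w' ∈ range q ×ˢ range q, (cnt2 I y z q w' : ℝ) = I.card := by
        exact_mod_cast sum_cnt2 I y z hq
      rw [← Finset.add_sum_erase _ _ hw] at h4
      have h5 : ∑ w' ∈ (range q ×ˢ range q).erase (0, 0),
          ((I.card : ℝ) / q ^ 2 * (1 - s) - δ * k) ≤
          ∑ w' ∈ (range q ×ˢ range q).erase (0, 0), (cnt2 I y z q w' : ℝ) :=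
        Finset.sum_le_sum fun w' hw' => h1 w' (mem_of_mem_erase hw')
      rw [Finset.sum_const, card_erase_of_mem hw, card_product, card_range, nsmul_eq_mul] at h5
      have h6 : ((q * q - 1 : ℕ) : ℝ) = (q : ℝ) ^ 2 - 1 := by
        rw [Nat.cast_sub (by nlinarith)]
        push_cast
        ring
      rw [h6] at h5
      have h7 : ((q : ℝ) ^ 2 - 1) * ((I.card : ℝ) / q ^ 2 * (1 - s) - δ * k) =
          I.card - I.card / q ^ 2 - s * I.card + s * (I.card / q ^ 2) -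
            (q : ℝ) ^ 2 * δ * k + δ * k := by
        field_simp
        ring
      have h8 : 0 ≤ s * ((I.card : ℝ) / q ^ 2) := by positivity
      have h9 : (q : ℝ) ^ 2 * δ = ε / 4 := by
        rw [hδ]
        field_simp
      rw [h7, h9] at h5
      have h10 : 0 ≤ δ * k := by positivity
      linarith
    have h4 : |(cnt2 I y z q (0, 0) : ℝ) - I.card / q ^ 2| ≤ ε / 2 * k := by
      rw [abs_le]
      constructor
      · have h5 : s * ((I.card : ℝ) / q ^ 2) ≤ s * I.card := mul_le_mul_of_nonneg_left hdiv hs0.le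
        linarith
      · linarith
    have h5 : ε / 2 * k < ε * k := mul_lt_mul_of_pos_right (by linarith) hk
    linarith
  obtain ⟨h, h', h1, h2, h2', h3⟩ := hex
  obtain ⟨d, hd⟩ := exists_dir (es2 I y z h h')
  obtain ⟨d', hd', hId⟩ := dir8 d
  refine ⟨h, h', h1, h2, h2', d', hd', ?_⟩
  rw [hId] at hd
  refine (show e / 2 * k ≤ ‖es2 I y z h h'‖ / 2 by linarith).trans (hd.trans (le_of_eq ?_))
  congr 1
  unfold es2
  rw [mul_comm, sum_mul]
  refine Finset.sum_congr rfl fun i _ => ?_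
  congr 1
  unfold ee
  congr 1
  push_cast
  ring

end Pool.Agent.Helper48.NM
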